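import Mathlib

/-!
Essential closures of a set that is periodic up to null sets, and a weighted length inequality.
-/

set_option autoImplicit false

namespace Pool.Agent.Lib.MP_b76267_pr.Low

open MeasureTheory Set Topology
open scoped ENNReal NNReal

section Ess

variable {n : ℕ}

/-- Points all of whose neighbourhoods meet `A` in a set that is not null. -/
def ess (A : Set (EuclideanSpace ℝ (Fin n))) : Set (EuclideanSpace ℝ (Fin n)) :=
  {x | ∀ U ∈ 𝓝 x, volume (A ∩ U) ≠ 0}

lemma isClosed_ess (A : Set (EuclideanSpace ℝ (Fin n))) : IsClosed (ess A) := by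
  rw [← isOpen_compl_iff, isOpen_iff_mem_nhds]
  intro x hx
  simp only [ess, mem_compl_iff, mem_ofPred_eq, not_forall, not_not] at hx
  obtain ⟨U, hU, h0⟩ := hx
  filter_upwards [eventually_mem_nhds_iff.2 hU] with y hy hy'
  exact hy' U hy h0

lemma ess_cover (A : Set (EuclideanSpace ℝ (Fin n))) (x : EuclideanSpace ℝ (Fin n)) :
    x ∈ ess A ∨ x ∈ ess Aᶜ := by
  by_contra h
  simp only [ess, mem_ofPred_eq, not_or, not_forall, not_not] at h
  obtain ⟨⟨U, hU, h0⟩, V, hV, h1⟩ := h
  have h2 : volume (U ∩ V) = 0 := by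
    refine measure_mono_null (t := A ∩ U ∪ Aᶜ ∩ V) ?_ (measure_union_null h0 h1)
    intro y hy
    by_cases hA : y ∈ A
    · exact Or.inl ⟨hA, hy.1⟩
    · exact Or.inr ⟨hA, hy.2⟩
  exact (Measure.measure_pos_of_mem_nhds volume (Filter.inter_mem hU hV)).ne' h2

lemma ess_subset_closure (A : Set (EuclideanSpace ℝ (Fin n))) : ess A ⊆ closure A := by
  intro x hx
  rw [mem_closure_iff_nhds]
  intro U hU
  rw [inter_comm]
  exact nonempty_of_measure_ne_zero (hx U hU)

lemma ess_inter_subset (A : Set (EuclideanSpace ℝ (Fin n))) : ess A ∩ ess Aᶜ ⊆ frontier A := by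
  rw [frontier_eq_closure_inter_closure]
  exact inter_subset_inter (ess_subset_closure _) (ess_subset_closure _)

lemma ess_map (T : EuclideanSpace ℝ (Fin n) ≃ₜ EuclideanSpace ℝ (Fin n))
    (hT : ∀ s, volume (T '' s) = volume s) {A B : Set (EuclideanSpace ℝ (Fin n))}
    (h : T '' A =ᵐ[volume] B) {x : EuclideanSpace ℝ (Fin n)} (hx : x ∈ ess A) : T x ∈ ess B := by
  intro U hU
  have h1 := hx (T ⁻¹' U) (T.continuous.continuousAt.preimage_mem_nhds hU)
  rw [← hT, image_inter_preimage] at h1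
  rwa [← measure_congr (h.inter (Filter.EventuallyEq.refl _ U))]

lemma ess_swap (T : EuclideanSpace ℝ (Fin n) ≃ₜ EuclideanSpace ℝ (Fin n))
    (hT : ∀ s, volume (T '' s) = volume s) {A : Set (EuclideanSpace ℝ (Fin n))}
    (h : T '' A =ᵐ[volume] Aᶜ) (x : EuclideanSpace ℝ (Fin n)) :
    (x ∈ ess A → T x ∈ ess Aᶜ) ∧ (x ∈ ess Aᶜ → T x ∈ ess A) := by
  refine ⟨ess_map T hT h, ess_map T hT ?_⟩
  have : ((T '' A)ᶜ : Set _) =ᵐ[volume] (Aᶜᶜ : Set _) := h.compl
  rw [compl_compl] at this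
  rwa [T.image_compl]

/-- The two closed sets attached to a periodic set. -/
structure Swap (C D : Set (EuclideanSpace ℝ (Fin n))) : Prop where
  closedC : IsClosed C
  closedD : IsClosed D
  cover : ∀ x, x ∈ C ∨ x ∈ D
  neg : ∀ x, (x ∈ C → -x ∈ D) ∧ (x ∈ D → -x ∈ C)
  add : ∀ (i : Fin n) x, (x ∈ C → x + EuclideanSpace.single i (1 : ℝ) ∈ D) ∧
    (x ∈ D → x + EuclideanSpace.single i (1 : ℝ) ∈ C)

lemma swap_ess {A : Set (EuclideanSpace ℝ (Fin n))}
    (h1 : ∀ i : Fin n, (fun x => x + EuclideanSpace.single i (1 : ℝ)) '' A =ᵐ[volume] Aᶜ)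
    (h2 : (-A : Set (EuclideanSpace ℝ (Fin n))) =ᵐ[volume] Aᶜ) : Swap (ess A) (ess Aᶜ) where
  closedC := isClosed_ess _
  closedD := isClosed_ess _
  cover := ess_cover A
  neg x := by
    refine ess_swap (Homeomorph.neg _) (fun s => ?_) ?_ x
    · simp [Measure.measure_neg]
    · simpa using h2
  add i x := by
    refine ess_swap (Homeomorph.addRight _) (fun s => ?_) (h1 i) x
    simp

lemma Swap.neg_mem {C D : Set (EuclideanSpace ℝ (Fin n))} (h : Swap C D)
    {x : EuclideanSpace ℝ (Fin n)} (hx : x ∈ C ∩ D) : -x ∈ C ∩ D :=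
  ⟨(h.neg x).2 hx.2, (h.neg x).1 hx.1⟩

lemma Swap.zero_mem {C D : Set (EuclideanSpace ℝ (Fin n))} (h : Swap C D) :
    (0 : EuclideanSpace ℝ (Fin n)) ∈ C ∩ D := by
  have := h.neg 0
  rw [neg_zero] at this
  rcases h.cover 0 with h0 | h0
  · exact ⟨h0, this.1 h0⟩
  · exact ⟨this.2 h0, h0⟩

lemma Swap.add_int {C D : Set (EuclideanSpace ℝ (Fin n))} (h : Swap C D) (i : Fin n) (k : ℤ)
    {x : EuclideanSpace ℝ (Fin n)} (hx : x ∈ C ∩ D) :
    x + (k : ℝ) • EuclideanSpace.single i (1 : ℝ) ∈ C ∩ D := by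
  have hp : ∀ y ∈ C ∩ D, y + EuclideanSpace.single i (1 : ℝ) ∈ C ∩ D := fun y hy =>
    ⟨(h.add i y).2 hy.2, (h.add i y).1 hy.1⟩
  induction k using Int.induction_on with
  | zero => simpa using hx
  | succ k ih =>
    have := hp _ ih
    push_cast at this ⊢
    rwa [add_smul, one_smul, ← add_assoc]
  | pred k ih =>
    have := h.neg_mem (hp _ (h.neg_mem ih))
    push_cast at this ⊢
    convert this using 1
    rw [sub_smul, one_smul]
    abel

end Ess

/-- If `u` has local Lipschitz constant at most `w`, the length of `u '' A` is at most the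
`w`-weighted length of `A`. -/
lemma volume_image_le {X : Type*} [MetricSpace X] [SecondCountableTopology X] [MeasurableSpace X]
    [BorelSpace X] {A : Set X} (hA : MeasurableSet A) {u w : X → ℝ} (hw : Continuous w)
    (hw0 : ∀ x, 0 < w x)
    (hu : ∀ x ∈ A, ∀ K : ℝ≥0, w x < K → ∃ s ∈ 𝓝 x, LipschitzOnWith K u s) :
    volume (u '' A) ≤ ∫⁻ x in A, ENNReal.ofReal (w x) ∂μHE[1] := by
  have key : ∀ r : ℝ≥0, 1 < r →
      volume (u '' A) ≤ (r : ℝ≥0∞) * ∫⁻ x in A, ENNReal.ofReal (w x) ∂μHE[1] := by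
    intro r hr
    have hr' : (1 : ℝ) < r := by exact_mod_cast hr
    have h1 : ∀ x : A, ∃ (U : Set X) (K : ℝ≥0), IsOpen U ∧ (x : X) ∈ U ∧ LipschitzOnWith K u U ∧
        ∀ y ∈ U, (K : ℝ) ≤ r * w y := by
      intro x
      have hx := hw0 x
      obtain ⟨K, hK1, hK2⟩ := exists_between (show w x < r * w x by nlinarith)
      lift K to ℝ≥0 using (hx.trans hK1).le
      obtain ⟨s, hs, hL⟩ := hu x x.2 K hK1
      have ho : IsOpen {y | (K : ℝ) < r * w y} := isOpen_lt continuous_const (by fun_prop)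
      refine ⟨interior s ∩ {y | (K : ℝ) < r * w y}, K, isOpen_interior.inter ho,
        ⟨mem_interior_iff_mem_nhds.2 hs, hK2⟩,
        hL.mono (inter_subset_left.trans interior_subset), fun y hy => le_of_lt hy.2⟩
    choose U K hUo hxU hL hK using h1
    rcases A.eq_empty_or_nonempty with rfl | hne
    · simp
    have : Nonempty A := hne.to_subtype
    obtain ⟨f, hf⟩ := (HereditarilyLindelofSpace.isLindelof A).indexed_countable_subcover U hUo
      (fun x hx => mem_iUnion.2 ⟨⟨x, hx⟩, hxU _⟩)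
    set V : ℕ → Set X := fun j => disjointed (fun j => U (f j)) j ∩ A with hV
    have hVm : ∀ j, MeasurableSet (V j) := fun j =>
      (MeasurableSet.disjointed (fun j => (hUo (f j)).measurableSet) j).inter hA
    have hVd : Pairwise (Function.onFun Disjoint V) := fun i j hij =>
      (disjoint_disjointed (fun j => U (f j)) hij).mono inter_subset_left inter_subset_left
    have hVU : ∀ j, V j ⊆ U (f j) := fun j => inter_subset_left.trans (disjointed_subset _ j)
    have hAV : A = ⋃ j, V j := by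
      rw [hV, ← iUnion_inter, iUnion_disjointed]
      exact (inter_eq_right.2 hf).symm
    have hj : ∀ j, volume (u '' V j) ≤
        (r : ℝ≥0∞) * ∫⁻ x in V j, ENNReal.ofReal (w x) ∂μHE[1] := by
      intro j
      have h2 := ((hL (f j)).mono (hVU j)).hausdorffMeasure_image_le (d := ((1 : ℕ) : ℝ))
        (by positivity)
      have h3 : volume (u '' V j) ≤ (K (f j) : ℝ≥0∞) * μHE[1] (V j) := by
        have h4 := InnerProductSpace.euclideanHausdorffMeasure_eq_volume (V := ℝ)
        rw [Module.finrank_self] at h4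
        rw [← h4]
        simp only [Measure.euclideanHausdorffMeasure_def, Measure.smul_apply]
        rw [ENNReal.rpow_natCast, pow_one] at h2
        simp only [ENNReal.smul_def, smul_eq_mul]
        rw [mul_left_comm]
        gcongr
      refine h3.trans ?_
      rw [← lintegral_const_mul' _ _ ENNReal.coe_ne_top, ← setLIntegral_const]
      refine setLIntegral_mono' (hVm j) fun y hy => ?_
      rw [← ENNReal.ofReal_coe_nnreal, ← ENNReal.ofReal_coe_nnreal (p := r),
        ← ENNReal.ofReal_mul r.coe_nonneg]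
      exact ENNReal.ofReal_le_ofReal (hK _ y (hVU j hy))
    calc volume (u '' A) = volume (⋃ j, u '' V j) := by rw [← image_iUnion, ← hAV]
      _ ≤ ∑' j, volume (u '' V j) := measure_iUnion_le _
      _ ≤ ∑' j, (r : ℝ≥0∞) * ∫⁻ x in V j, ENNReal.ofReal (w x) ∂μHE[1] := ENNReal.tsum_le_tsum hj
      _ = _ := by
        rw [ENNReal.tsum_mul_left, ← lintegral_iUnion hVm hVd, ← hAV]
  refine ENNReal.le_of_forall_lt_one_mul_le fun a ha => ?_
  rcases eq_or_ne a 0 with rfl | ha0
  · simp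
  have h1 : 1 < a⁻¹ := ENNReal.one_lt_inv.2 ha
  have h2 : a⁻¹ ≠ ⊤ := ENNReal.inv_ne_top.2 ha0
  lift a⁻¹ to ℝ≥0 using h2 with r hr
  have h3 := key r (by exact_mod_cast h1)
  calc a * volume (u '' A) ≤ a * (r * ∫⁻ x in A, ENNReal.ofReal (w x) ∂μHE[1]) := by gcongr
    _ = _ := by rw [hr, ← mul_assoc, ENNReal.mul_inv_cancel ha0 ha.ne_top, one_mul]

end Pool.Agent.Lib.MP_b76267_pr.Low
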