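import Mathlib
import Pool.Agent.Lib.MP_b76267_pr.Low.Top

/-!
A calibration on the square `|y 0| + |y 1| < 1 / 2` for an almost constant product weight.
-/

set_option autoImplicit false

namespace Pool.Agent.Lib.MP_b76267_pr.Low

open MeasureTheory Set Topology
open scoped ENNReal NNReal

/-- The estimates used on the one-dimensional weight. -/
structure Good (f : ℝ → ℝ) : Prop where
  cont : Continuous f
  near : ∀ x, |f x - 1| ≤ 1 / 100
  lip : ∀ a b, |f a - f b| ≤ 1 / 100 * |a - b|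
  second : ∀ m h, 2 * f m - 1 / 100 * h ^ 2 ≤ f (m + h) + f (m - h)

/-- The level function. -/
noncomputable def xi (a b : ℝ) : ℝ := 1 / 4 + ((a + b) / 2 - 1 / 4) * (1 - (a - b) ^ 2)

/-- Primitive of the squared weight. -/
noncomputable def Lam (f : ℝ → ℝ) (t : ℝ) : ℝ := ∫ τ in (0 : ℝ)..t, f τ ^ 2

lemma Good.key {f : ℝ → ℝ} (hf : Good f) {a b : ℝ} (ha : 0 ≤ a) (hb : 0 ≤ b) (hab : a + b ≤ 1 / 2) :
    f (xi a b) ^ 2 * (1 - 3 / 8 * (a - b) ^ 2) ≤ f a * f b := by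
  set m := (a + b) / 2 with hm
  set d := a - b with hd
  have hd2 : d ^ 2 ≤ 1 / 4 := by
    have : |d| ≤ 1 / 2 := abs_le.2 ⟨by linarith, by linarith⟩
    have h2 := sq_abs d
    nlinarith [abs_nonneg d]
  have hd0 := sq_nonneg d
  have h1 := hf.second m (d / 2)
  have e1 : m + d / 2 = a := by rw [hm, hd]; ring
  have e2 : m - d / 2 = b := by rw [hm, hd]; ring
  rw [e1, e2] at h1
  have h2 : (f a - f b) ^ 2 ≤ (1 / 100) ^ 2 * d ^ 2 := by
    have := hf.lip a b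
    rw [← sq_abs (f a - f b), ← sq_abs d, ← mul_pow]
    exact pow_le_pow_left₀ (abs_nonneg _) this 2
  have h3 : f (xi a b) ≤ f m + 1 / 400 * d ^ 2 := by
    have h4 := hf.lip (xi a b) m
    have h5 : xi a b - m = (1 / 4 - m) * d ^ 2 := by
      rw [xi, ← hm, ← hd]
      ring
    have h6 : |xi a b - m| ≤ 1 / 4 * d ^ 2 := by
      rw [h5, abs_of_nonneg (mul_nonneg (by linarith) hd0)]
      have : 0 ≤ m := by linarith
      nlinarith
    have := le_abs_self (f (xi a b) - f m)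
    linarith
  obtain ⟨hF1, hF2⟩ := abs_le.1 (hf.near m)
  obtain ⟨hX1, -⟩ := abs_le.1 (hf.near (xi a b))
  set F := f m
  set X := f (xi a b)
  set e := d ^ 2
  have h7 : X ^ 2 ≤ (F + 1 / 400 * e) ^ 2 := pow_le_pow_left₀ (by linarith) h3 2
  have h8 : (2 * F - 1 / 400 * e) ^ 2 ≤ (f a + f b) ^ 2 :=
    pow_le_pow_left₀ (by linarith) (by nlinarith) 2
  have h9 : X ^ 2 * (1 - 3 / 8 * e) ≤ (F + 1 / 400 * e) ^ 2 * (1 - 3 / 8 * e) :=
    mul_le_mul_of_nonneg_right h7 (by linarith)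
  have h10 : (F + 1 / 400 * e) ^ 2 ≤ F ^ 2 + 1 / 100 * e := by nlinarith
  have h11 : (F + 1 / 400 * e) ^ 2 * (1 - 3 / 8 * e) ≤ (F ^ 2 + 1 / 100 * e) * (1 - 3 / 8 * e) :=
    mul_le_mul_of_nonneg_right h10 (by linarith)
  have h12 : F ^ 2 - 1 / 100 * e ≤ f a * f b := by nlinarith
  have h13 : 9 / 10 ≤ F ^ 2 := by nlinarith
  nlinarith

lemma Good.hasStrictDerivAt {f : ℝ → ℝ} (hf : Good f) (t : ℝ) :
    HasStrictDerivAt (Lam f) (f t ^ 2) t :=
  (hf.cont.pow 2).integral_hasStrictDerivAt 0 t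

/-- The calibration in the first quadrant. -/
noncomputable def cal (f : ℝ → ℝ) (y : EuclideanSpace ℝ (Fin 2)) : ℝ :=
  √2 * Lam f (xi (y 0) (y 1))

lemma Good.grad {f : ℝ → ℝ} (hf : Good f) {y : EuclideanSpace ℝ (Fin 2)} (ha : 0 ≤ y 0)
    (hb : 0 ≤ y 1) (hab : y 0 + y 1 ≤ 1 / 2) :
    ∃ L : EuclideanSpace ℝ (Fin 2) →L[ℝ] ℝ, HasStrictFDerivAt (cal f) L y ∧
      ‖L‖ ≤ f (y 0) * f (y 1) := by
  have h0 : HasStrictFDerivAt (fun y : EuclideanSpace ℝ (Fin 2) => y 0)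
      (EuclideanSpace.proj (𝕜 := ℝ) (0 : Fin 2)) y :=
    (EuclideanSpace.proj (𝕜 := ℝ) (0 : Fin 2)).hasStrictFDerivAt
  have h1 : HasStrictFDerivAt (fun y : EuclideanSpace ℝ (Fin 2) => y 1)
      (EuclideanSpace.proj (𝕜 := ℝ) (1 : Fin 2)) y :=
    (EuclideanSpace.proj (𝕜 := ℝ) (1 : Fin 2)).hasStrictFDerivAt
  have h2 := (((((h0.fun_add h1).mul_const (1 / 2 : ℝ)).sub_const (1 / 4)).fun_mul
    (((h0.fun_sub h1).fun_mul (h0.fun_sub h1)).const_sub 1)).const_add (1 / 4))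
  have h3 : (fun y : EuclideanSpace ℝ (Fin 2) => 1 / 4 + ((y 0 + y 1) * (1 / 2) - 1 / 4) *
      (1 - (y 0 - y 1) * (y 0 - y 1))) = fun y => xi (y 0) (y 1) := by
    funext y
    rw [xi]
    ring
  rw [h3] at h2
  have h4 := ((hf.hasStrictDerivAt (xi (y 0) (y 1))).comp_hasStrictFDerivAt y h2).const_mul (√2)
  refine ⟨_, h4, ?_⟩
  have hk := hf.key ha hb hab
  obtain ⟨ha1, -⟩ := abs_le.1 (hf.near (y 0))
  obtain ⟨hb1, -⟩ := abs_le.1 (hf.near (y 1))
  refine ContinuousLinearMap.opNorm_le_bound _ (mul_nonneg (by linarith) (by linarith)) fun v => ?_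
  set a := y 0
  set b := y 1
  set α := (1 - (a - b) ^ 2) / 2 - 2 * (a - b) * ((a + b) / 2 - 1 / 4) with hα
  set β := (1 - (a - b) ^ 2) / 2 + 2 * (a - b) * ((a + b) / 2 - 1 / 4) with hβ
  have hd2 : (a - b) ^ 2 ≤ 1 / 4 := by nlinarith
  have hG : 2 * (α ^ 2 + β ^ 2) ≤ (1 - 3 / 8 * (a - b) ^ 2) ^ 2 := by
    have e : 2 * (α ^ 2 + β ^ 2) =
        (1 - (a - b) ^ 2) ^ 2 + (a - b) ^ 2 * (2 * (a + b) - 1) ^ 2 := by
      rw [hα, hβ]
      ring
    have h5 : (2 * (a + b) - 1) ^ 2 ≤ 1 := by nlinarith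
    have h6 := mul_le_mul_of_nonneg_left h5 (sq_nonneg (a - b))
    rw [e]
    nlinarith [sq_nonneg (a - b)]
  have hv : ‖v‖ ^ 2 = v 0 ^ 2 + v 1 ^ 2 := by
    rw [EuclideanSpace.real_norm_sq_eq, Fin.sum_univ_two]
  have h7 : |√2 * (α * v 0 + β * v 1)| ≤ (1 - 3 / 8 * (a - b) ^ 2) * ‖v‖ := by
    apply abs_le_of_sq_le_sq' _ (mul_nonneg (by linarith) (norm_nonneg _)) |> abs_le.2
    rw [mul_pow, mul_pow, Real.sq_sqrt (by norm_num), hv]
    have h8 : (α * v 0 + β * v 1) ^ 2 ≤ (α ^ 2 + β ^ 2) * (v 0 ^ 2 + v 1 ^ 2) := by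
      nlinarith [sq_nonneg (α * v 1 - β * v 0)]
    have h9 := mul_le_mul_of_nonneg_right hG (add_nonneg (sq_nonneg (v 0)) (sq_nonneg (v 1)))
    linarith
  calc _ = f (xi a b) ^ 2 * |√2 * (α * v 0 + β * v 1)| := by
        rw [Real.norm_eq_abs, ← abs_of_nonneg (sq_nonneg (f (xi a b))), ← abs_mul]
        congr 1
        simp [hα, hβ]
        ring
    _ ≤ f (xi a b) ^ 2 * ((1 - 3 / 8 * (a - b) ^ 2) * ‖v‖) := by gcongr
    _ ≤ _ := by
        rw [← mul_assoc]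
        gcongr

/-- Folding into the first quadrant around the centre `(z, z)`. -/
noncomputable def fold (z : ℝ) (y : EuclideanSpace ℝ (Fin 2)) : EuclideanSpace ℝ (Fin 2) :=
  !₂[|y 0 - z|, |y 1 - z|]

lemma lipschitz_fold (z : ℝ) : LipschitzWith 1 (fold z) := by
  apply LipschitzWith.of_dist_le_mul
  intro x y
  rw [NNReal.coe_one, one_mul, EuclideanSpace.dist_eq, EuclideanSpace.dist_eq]
  apply Real.sqrt_le_sqrt
  simp only [Fin.sum_univ_two, fold, Real.dist_eq, Matrix.cons_val_zero, Matrix.cons_val_one]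
  have h : ∀ s t : ℝ, abs (|s - z| - |t - z|) ^ 2 ≤ |s - t| ^ 2 := fun s t => by
    apply pow_le_pow_left₀ (abs_nonneg _)
    have := abs_abs_sub_abs_le_abs_sub (s - z) (t - z)
    rwa [sub_sub_sub_cancel_right] at this
  exact add_le_add (h _ _) (h _ _)

lemma Good.half {f : ℝ → ℝ} (hf : Good f) (z : ℝ) {A : Set (EuclideanSpace ℝ (Fin 2))}
    (hA : MeasurableSet A) (hin : ∀ y ∈ A, |y 0 - z| + |y 1 - z| < 1 / 2)
    (hlev : ∀ t ∈ Ioo (0 : ℝ) (1 / 4), ∃ y ∈ A, xi |y 0 - z| |y 1 - z| = t) :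
    ENNReal.ofReal (√2 * Lam f (1 / 4)) ≤
      ∫⁻ y in A, ENNReal.ofReal (f |y 0 - z| * f |y 1 - z|) ∂μHE[1] := by
  have hpos : ∀ x, 0 < f x := fun x => by
    have := (abs_le.1 (hf.near x)).1
    linarith
  have hc := hf.cont
  refine le_trans ?_ (volume_image_le hA (u := fun y => cal f (fold z y)) (by fun_prop)
    (fun y => mul_pos (hpos _) (hpos _)) ?_)
  · have h1 : Ioo (0 : ℝ) (√2 * Lam f (1 / 4)) ⊆ (fun y => cal f (fold z y)) '' A := by
      have h2 : Continuous fun t => √2 * Lam f t :=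
        continuous_const.mul (continuous_iff_continuousAt.2 fun t =>
          (hf.hasStrictDerivAt t).hasDerivAt.continuousAt)
      have h3 := intermediate_value_Ioo (by norm_num : (0 : ℝ) ≤ 1 / 4) h2.continuousOn
      have h4 : Lam f 0 = 0 := by simp [Lam]
      rw [h4, mul_zero] at h3
      intro s hs
      obtain ⟨t, ht, rfl⟩ := h3 hs
      obtain ⟨y, hy, rfl⟩ := hlev t ht
      exact ⟨y, hy, by simp [cal, fold]⟩
    have := measure_mono (μ := volume) h1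
    rwa [Real.volume_Ioo, sub_zero] at this
  · intro y hy K hK
    obtain ⟨L, hL, hn⟩ := hf.grad (y := fold z y) (by simp [fold]) (by simp [fold])
      (by simpa [fold] using (hin y hy).le)
    obtain ⟨s, hs, hLs⟩ := hL.exists_lipschitzOnWith_of_nnnorm_lt K (by
      rw [← NNReal.coe_lt_coe, coe_nnnorm]
      refine lt_of_le_of_lt hn ?_
      simpa [fold] using hK)
    refine ⟨fold z ⁻¹' s, (lipschitz_fold z).continuous.continuousAt.preimage_mem_nhds hs, ?_⟩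
    have := hLs.comp ((lipschitz_fold z).lipschitzOnWith (s := fold z ⁻¹' s)) (fun _ h => h)
    rwa [mul_one] at this

lemma level (z : ℝ) {C D : Set (EuclideanSpace ℝ (Fin 2))} (hC : IsClosed C) (hD : IsClosed D)
    (hcov : ∀ x, x ∈ C ∨ x ∈ D)
    (hsw : ∀ x, (x ∈ C → !₂[2 * z - x 0, 2 * z - x 1] ∈ D) ∧
      (x ∈ D → !₂[2 * z - x 0, 2 * z - x 1] ∈ C)) {t : ℝ} (ht : t ∈ Ioo (0 : ℝ) (1 / 4)) :
    ∃ y ∈ C ∩ D, |y 0 - z| + |y 1 - z| < 1 / 2 ∧ xi |y 0 - z| |y 1 - z| = t := by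
  obtain ⟨ht0, ht1⟩ := ht
  set m : ℝ → ℝ := fun d => 1 / 4 - (1 / 4 - t) / (1 - d ^ 2) with hm
  have hmc : ContinuousOn m (Icc (-(1 / 2)) (1 / 2)) := by
    refine continuousOn_const.sub (continuousOn_const.div (by fun_prop) fun d hd => ?_)
    nlinarith [hd.1, hd.2]
  obtain ⟨e, he, hme⟩ : ∃ e ∈ Icc (0 : ℝ) (1 / 2), m e - e / 2 = 0 := by
    have h1 : ContinuousOn (fun d => m d - d / 2) (Icc 0 (1 / 2)) :=
      (hmc.mono (Icc_subset_Icc (by norm_num) le_rfl)).sub (by fun_prop)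
    apply intermediate_value_Icc' (by norm_num) h1
    constructor
    · simp only [hm]
      have : 0 ≤ (1 / 4 - t) / (1 - (1 / 2 : ℝ) ^ 2) := div_nonneg (by linarith) (by norm_num)
      linarith
    · simp only [hm]
      norm_num
      linarith
  obtain ⟨he0, he1⟩ := he
  have hsub : Icc (-e) e ⊆ Icc (-(1 / 2)) (1 / 2) := Icc_subset_Icc (by linarith) he1
  have hmc' := hmc.mono hsub
  have hmneg : m (-e) = m e := by simp [hm]
  have hprop : ∀ d ∈ Icc (-e) e, 0 ≤ m d + d / 2 ∧ 0 ≤ m d - d / 2 ∧ m d < 1 / 4 ∧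
      xi (m d + d / 2) (m d - d / 2) = t := by
    intro d hd
    have h1 : d ^ 2 ≤ e ^ 2 := by nlinarith [hd.1, hd.2]
    have h2 : 0 < 1 - e ^ 2 := by nlinarith
    have h3 : 0 < 1 - d ^ 2 := by linarith
    have h4 : m e ≤ m d := by
      simp only [hm]
      gcongr
    refine ⟨by linarith [hd.1], by linarith [hd.2], ?_, ?_⟩
    · simp only [hm]
      have : 0 < (1 / 4 - t) / (1 - d ^ 2) := div_pos (by linarith) h3
      linarith
    · have e1 : (m d + d / 2 + (m d - d / 2)) / 2 = m d := by ring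
      have e2 : m d + d / 2 - (m d - d / 2) = d := by ring
      rw [xi, e1, e2]
      simp only [hm]
      field_simp
      ring
  set c : ℝ → ℝ → EuclideanSpace ℝ (Fin 2) :=
    fun σ d => !₂[z + σ * (m d + d / 2), z + (m d - d / 2)] with hc
  have hcc : ∀ σ, ContinuousOn (c σ) (Icc (-e) e) := by
    intro σ
    refine (PiLp.continuous_toLp 2 _).comp_continuousOn (continuousOn_pi.2 fun i => ?_)
    fin_cases i
    · exact continuousOn_const.add (continuousOn_const.mul (hmc'.add (by fun_prop)))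
    · exact continuousOn_const.add (hmc'.sub (by fun_prop))
  have hle : -e ≤ e := by linarith
  have hK : IsPreconnected (c 1 '' Icc (-e) e ∪ c (-1) '' Icc (-e) e) := by
    refine IsPreconnected.union (c 1 (-e)) ⟨-e, left_mem_Icc.2 hle, rfl⟩
      ⟨-e, left_mem_Icc.2 hle, ?_⟩ (isPreconnected_Icc.image _ (hcc 1))
      (isPreconnected_Icc.image _ (hcc (-1)))
    have : m (-e) + -e / 2 = 0 := by rw [hmneg]; linarith
    simp only [hc, this, mul_zero]
  have hp : c 1 e ∈ c 1 '' Icc (-e) e ∪ c (-1) '' Icc (-e) e :=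
    Or.inl ⟨e, right_mem_Icc.2 hle, rfl⟩
  have hp' : c (-1) e ∈ c 1 '' Icc (-e) e ∪ c (-1) '' Icc (-e) e :=
    Or.inr ⟨e, right_mem_Icc.2 hle, rfl⟩
  have hR : !₂[2 * z - c 1 e 0, 2 * z - c 1 e 1] = c (-1) e := by
    simp only [hc, hme]
    ext i
    fin_cases i
    · simp
      ring
    · simp
      ring
  have hsw' := hsw (c 1 e)
  rw [hR] at hsw'
  obtain ⟨y, hyK, hy⟩ : ((c 1 '' Icc (-e) e ∪ c (-1) '' Icc (-e) e) ∩ (C ∩ D)).Nonempty := by
    refine isPreconnected_closed_iff.1 hK C D hC hD (fun x _ => hcov x) ?_ ?_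
    · rcases hcov (c 1 e) with h | h
      · exact ⟨_, hp, h⟩
      · exact ⟨_, hp', hsw'.2 h⟩
    · rcases hcov (c 1 e) with h | h
      · exact ⟨_, hp', hsw'.1 h⟩
      · exact ⟨_, hp, h⟩
  refine ⟨y, hy, ?_⟩
  obtain ⟨d, hd, h0, h1⟩ : ∃ d ∈ Icc (-e) e, |y 0 - z| = m d + d / 2 ∧ |y 1 - z| = m d - d / 2 := by
    rcases hyK with ⟨d, hd, rfl⟩ | ⟨d, hd, rfl⟩
    · obtain ⟨h1, h2, -⟩ := hprop d hd
      exact ⟨d, hd, by simp [hc, abs_of_nonneg h1], by simp [hc, abs_of_nonneg h2]⟩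
    · obtain ⟨h1, h2, -⟩ := hprop d hd
      refine ⟨d, hd, ?_, by simp [hc, abs_of_nonneg h2]⟩
      simp only [hc, Matrix.cons_val_zero, add_sub_cancel_left, neg_mul, one_mul, abs_neg,
        abs_of_nonneg h1]
  obtain ⟨-, -, h3, h4⟩ := hprop d hd
  rw [h0, h1]
  exact ⟨by linarith, h4⟩

end Pool.Agent.Lib.MP_b76267_pr.Low
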