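import Mathlib

/-!
The periodised Gaussian density and its three estimates, from Poisson summation.
-/

set_option autoImplicit false

namespace Pool.Agent.Lib.MP_b76267_pr.Low

open Real

/-- One-dimensional Gaussian density. -/
noncomputable def g (s : ℝ) : ℝ := (√(2 * π))⁻¹ * exp (-s ^ 2 / 2)

/-- Periodised Gaussian density. -/
noncomputable def th (x : ℝ) : ℝ := ∑' k : ℤ, g (x + k)

/-- Fourier coefficient. -/
noncomputable def q (l : ℤ) : ℝ := exp (-(2 * π ^ 2) * (l : ℝ) ^ 2)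

lemma g_pos (s : ℝ) : 0 < g s := by
  unfold g
  positivity

lemma g_neg (s : ℝ) : g (-s) = g s := by
  simp [g]

lemma continuous_g : Continuous g := by
  unfold g
  fun_prop

lemma q_pos (l : ℤ) : 0 < q l := exp_pos _

lemma sq_q_le (l : ℤ) : (l : ℝ) ^ 2 * q l ≤ (1 / 100000 : ℝ) ^ l.natAbs := by
  have hpi : (18 : ℝ) ≤ 2 * π ^ 2 := by nlinarith [Real.pi_gt_three]
  have h1 : (l : ℝ) ^ 2 ≤ exp ((l : ℝ) ^ 2) := by
    have := Real.add_one_le_exp ((l : ℝ) ^ 2)
    linarith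
  have h2 : (l.natAbs : ℝ) ≤ (l : ℝ) ^ 2 := by
    have h : (l.natAbs : ℤ) ≤ l ^ 2 := by
      rw [Int.natCast_natAbs, ← sq_abs]
      exact Int.le_self_sq _
    have h' : ((l.natAbs : ℤ) : ℝ) ≤ ((l ^ 2 : ℤ) : ℝ) := by exact_mod_cast h
    simpa using h'
  have h3 : exp (-17 : ℝ) ≤ 1 / 100000 := by
    have h4 : (2 : ℝ) ≤ exp 1 := by
      have := Real.add_one_le_exp (1 : ℝ)
      linarith
    have h5 : (2 : ℝ) ^ 17 ≤ exp 17 := by
      have : exp (17 : ℝ) = exp 1 ^ 17 := by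
        rw [← Real.exp_nat_mul]
        norm_num
      rw [this]
      gcongr
    rw [exp_neg, one_div]
    apply inv_anti₀ (by norm_num)
    linarith
  calc (l : ℝ) ^ 2 * q l ≤ exp ((l : ℝ) ^ 2) * q l := by gcongr; exact (q_pos l).le
    _ = exp ((l : ℝ) ^ 2 + -(2 * π ^ 2) * (l : ℝ) ^ 2) := by rw [exp_add, q]
    _ ≤ exp ((l.natAbs : ℕ) * (-17 : ℝ)) := by
      apply exp_le_exp.2
      nlinarith [sq_nonneg (l : ℝ)]
    _ = exp (-17) ^ l.natAbs := by rw [Real.exp_nat_mul]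
    _ ≤ _ := by gcongr

lemma hasSum_sq_q : ∃ σ : ℝ, σ ≤ 1 / 4000 ∧ HasSum (fun l : ℤ => (l : ℝ) ^ 2 * q l) σ := by
  set x : ℝ := 1 / 100000 with hx
  have hx0 : 0 ≤ x := by norm_num [hx]
  have hx1 : x < 1 := by norm_num [hx]
  have hg := hasSum_geometric_of_lt_one hx0 hx1
  have hg1 : HasSum (fun n : ℕ => x ^ (n + 1)) (x * (1 - x)⁻¹) := by
    simpa [pow_succ, mul_comm] using hg.mul_left x
  have hb : HasSum (fun l : ℤ => if l = 0 then (0 : ℝ) else x ^ l.natAbs)
      (x * (1 - x)⁻¹ + x * (1 - x)⁻¹) := by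
    apply HasSum.of_nat_of_neg_add_one
    · rw [← hasSum_nat_add_iff' 1]
      simp only [Finset.range_one, Finset.sum_singleton, Nat.cast_zero, if_true, sub_zero]
      refine hg1.congr_fun fun n => ?_
      rw [if_neg (by omega), Int.natAbs_natCast]
    · refine hg1.congr_fun fun n => ?_
      rw [if_neg (by omega)]
      congr 1
  have hle : ∀ l : ℤ, (l : ℝ) ^ 2 * q l ≤ if l = 0 then (0 : ℝ) else x ^ l.natAbs := by
    intro l
    split_ifs with h
    · simp [h]
    · exact sq_q_le l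
  have hs : Summable (fun l : ℤ => (l : ℝ) ^ 2 * q l) :=
    Summable.of_nonneg_of_le (fun l => mul_nonneg (sq_nonneg _) (q_pos l).le) hle hb.summable
  refine ⟨_, ?_, hs.hasSum⟩
  refine (hasSum_le hle hs.hasSum hb).trans ?_
  norm_num [hx]

lemma abs_le_sq (l : ℤ) : |(l : ℝ)| ≤ (l : ℝ) ^ 2 := by
  have h : |l| ≤ l ^ 2 := by
    rw [← sq_abs]
    exact Int.le_self_sq _
  exact_mod_cast h

lemma summable_q : Summable q := by
  obtain ⟨σ, -, hσ⟩ := hasSum_sq_q
  refine Summable.of_norm_bounded_eventually hσ.summable ?_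
  rw [Filter.eventually_cofinite]
  refine (Set.finite_singleton (0 : ℤ)).subset fun l hl => ?_
  by_contra h0
  apply hl
  have h1 : (1 : ℝ) ≤ (l : ℝ) ^ 2 := by
    have : (1 : ℤ) ≤ l ^ 2 := by
      have h2 : l ≠ 0 := h0
      have : 0 < l ^ 2 := by positivity
      omega
    exact_mod_cast this
  rw [Real.norm_eq_abs, abs_of_pos (q_pos l)]
  nlinarith [q_pos l]

lemma hasSum_th (x : ℝ) : HasSum (fun l : ℤ => q l * cos (2 * π * l * x)) (th x) := by
  have ha : 0 < ((2 * π : ℝ) : ℂ).re := by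
    rw [Complex.ofReal_re]
    positivity
  have h := Complex.tsum_exp_neg_quadratic ha (-Complex.I * x)
  have e1 : ∀ n : ℤ, Complex.exp (-π * ((2 * π : ℝ) : ℂ) * n ^ 2 + 2 * π * (-Complex.I * x) * n)
      = (q n : ℂ) * Complex.exp (((-(2 * π * n * x) : ℝ) : ℂ) * Complex.I) := by
    intro n
    rw [q, Complex.ofReal_exp, ← Complex.exp_add]
    congr 1
    push_cast
    ring
  have hpi : (π : ℂ) ≠ 0 := by exact_mod_cast pi_ne_zero
  have e2 : ∀ n : ℤ, Complex.exp (-π / ((2 * π : ℝ) : ℂ) * (n + Complex.I * (-Complex.I * x)) ^ 2)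
      = ((exp (-(x + n) ^ 2 / 2) : ℝ) : ℂ) := by
    intro n
    rw [Complex.ofReal_exp]
    congr 1
    have : Complex.I * (-Complex.I * x) = x := by
      rw [← mul_assoc, mul_neg, Complex.I_mul_I]
      simp
    rw [this]
    push_cast
    field_simp
    ring
  have e3 : 1 / ((2 * π : ℝ) : ℂ) ^ (1 / 2 : ℂ) = (((√(2 * π))⁻¹ : ℝ) : ℂ) := by
    rw [sqrt_eq_rpow, Complex.ofReal_inv, Complex.ofReal_cpow (by positivity), one_div]
    push_cast
    rfl
  simp_rw [e1, e2] at h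
  rw [e3, ← Complex.ofReal_tsum, ← Complex.ofReal_mul, ← tsum_mul_left] at h
  have hs : Summable (fun n : ℤ =>
      (q n : ℂ) * Complex.exp (((-(2 * π * n * x) : ℝ) : ℂ) * Complex.I)) := by
    refine Summable.of_norm_bounded summable_q fun n => ?_
    rw [norm_mul, Complex.norm_exp_ofReal_mul_I, mul_one, Complex.norm_real, Real.norm_eq_abs,
      abs_of_pos (q_pos n)]
  have h2 := Complex.hasSum_re hs.hasSum
  rw [h, Complex.ofReal_re] at h2
  simp only [Complex.re_ofReal_mul, Complex.exp_ofReal_mul_I_re, cos_neg] at h2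
  exact h2

lemma th_sub_one (x : ℝ) : |th x - 1| ≤ 1 / 100 := by
  obtain ⟨σ, hσ, hs⟩ := hasSum_sq_q
  have h1 := (hasSum_th x).sub (hasSum_ite_eq (0 : ℤ) (1 : ℝ))
  have hb : ∀ l : ℤ, |q l * cos (2 * π * l * x) - if l = 0 then 1 else 0| ≤ (l : ℝ) ^ 2 * q l := by
    intro l
    split_ifs with h
    · simp [h, q]
    · have h1 : (1 : ℝ) ≤ (l : ℝ) ^ 2 := by
        have : (1 : ℤ) ≤ l ^ 2 := by
          have : 0 < l ^ 2 := by positivity
          omega
        exact_mod_cast this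
      rw [sub_zero, abs_mul, abs_of_pos (q_pos l)]
      nlinarith [q_pos l, abs_cos_le_one (2 * π * l * x), abs_nonneg (cos (2 * π * l * x))]
  rw [abs_le]
  constructor
  · have := hasSum_le (fun l => (abs_le.1 (hb l)).1) hs.neg h1
    linarith
  · have := hasSum_le (fun l => (abs_le.1 (hb l)).2) h1 hs
    linarith

lemma th_lip (a b : ℝ) : |th a - th b| ≤ 1 / 100 * |a - b| := by
  obtain ⟨σ, hσ, hs⟩ := hasSum_sq_q
  have h1 := (hasSum_th a).sub (hasSum_th b)
  have hb : ∀ l : ℤ, |q l * cos (2 * π * l * a) - q l * cos (2 * π * l * b)| ≤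
      (l : ℝ) ^ 2 * q l * (2 * π * |a - b|) := by
    intro l
    rw [← mul_sub, abs_mul, abs_of_pos (q_pos l)]
    have h2 := abs_cos_sub_cos_le (2 * π * l * a) (2 * π * l * b)
    rw [← mul_sub, abs_mul, abs_mul, abs_of_pos (by positivity : 0 < 2 * π)] at h2
    have h3 : 2 * π * |(l : ℝ)| * |a - b| ≤ 2 * π * (l : ℝ) ^ 2 * |a - b| := by
      gcongr
      exact abs_le_sq l
    have := mul_le_mul_of_nonneg_left (h2.trans h3) (q_pos l).le
    linarith
  have hσ0 : 0 ≤ σ := hs.nonneg fun l => mul_nonneg (sq_nonneg _) (q_pos l).le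
  have hc : σ * (2 * π * |a - b|) ≤ 1 / 100 * |a - b| := by
    have : σ * (2 * π) ≤ 1 / 100 := by nlinarith [pi_lt_four]
    nlinarith [abs_nonneg (a - b)]
  rw [abs_le]
  constructor
  · have := hasSum_le (fun l => (abs_le.1 (hb l)).1) (hs.mul_right _).neg h1
    linarith
  · have := hasSum_le (fun l => (abs_le.1 (hb l)).2) h1 (hs.mul_right _)
    linarith

lemma th_second (m h : ℝ) : 2 * th m - 1 / 100 * h ^ 2 ≤ th (m + h) + th (m - h) := by
  obtain ⟨σ, hσ, hs⟩ := hasSum_sq_q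
  have h1 := ((hasSum_th (m + h)).add (hasSum_th (m - h))).sub ((hasSum_th m).mul_left 2)
  have hb : ∀ l : ℤ, -((l : ℝ) ^ 2 * q l * (4 * π ^ 2 * h ^ 2)) ≤
      q l * cos (2 * π * l * (m + h)) + q l * cos (2 * π * l * (m - h)) -
        2 * (q l * cos (2 * π * l * m)) := by
    intro l
    rw [mul_add, mul_sub, cos_add, cos_sub]
    have h2 := one_sub_sq_div_two_le_cos (x := 2 * π * l * h)
    have h3 := cos_le_one (2 * π * l * h)
    have h4 := cos_le_one (2 * π * l * m)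
    have h5 : -(4 * π ^ 2 * (l : ℝ) ^ 2 * h ^ 2) ≤
        2 * cos (2 * π * l * m) * (cos (2 * π * l * h) - 1) := by nlinarith
    have := mul_le_mul_of_nonneg_left h5 (q_pos l).le
    linarith
  have h2 := hasSum_le hb (hs.mul_right _).neg h1
  have hσ0 : 0 ≤ σ := hs.nonneg fun l => mul_nonneg (sq_nonneg _) (q_pos l).le
  have h3 : π ^ 2 ≤ 10 := by nlinarith [pi_lt_d2, pi_pos]
  have h4 : σ * (4 * π ^ 2) ≤ 1 / 100 := by nlinarith
  nlinarith [sq_nonneg h]

lemma th_pos (x : ℝ) : 0 < th x := by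
  have := (abs_le.1 (th_sub_one x)).1
  linarith

lemma hasSum_g (x : ℝ) : HasSum (fun k : ℤ => g (x + k)) (th x) := by
  apply Summable.hasSum
  by_contra h
  have := th_pos x
  rw [th, tsum_eq_zero_of_not_summable h] at this
  exact lt_irrefl _ this

lemma continuous_th : Continuous th := by
  have : LipschitzWith 1 th := by
    apply LipschitzWith.of_dist_le_mul
    intro a b
    rw [Real.dist_eq, Real.dist_eq]
    have := th_lip a b
    simp only [NNReal.coe_one]
    nlinarith [abs_nonneg (a - b)]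
  exact this.continuous

lemma th_neg (x : ℝ) : th (-x) = th x := by
  apply (hasSum_th (-x)).unique
  simpa using hasSum_th x

lemma th_add_int (x : ℝ) (k : ℤ) : th (x + k) = th x := by
  apply (hasSum_th (x + k)).unique
  convert hasSum_th x using 3 with l
  have : 2 * π * l * (x + k) = 2 * π * l * x + ((l * k : ℤ) : ℝ) * (2 * π) := by
    push_cast
    ring
  rw [this, cos_add_int_mul_two_pi]

lemma tsum_ofReal_g (x : ℝ) : ∑' k : ℤ, ENNReal.ofReal (g (x + k)) = ENNReal.ofReal (th x) := by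
  rw [← ENNReal.ofReal_tsum_of_nonneg (fun k => (g_pos _).le) (hasSum_g x).summable, th]

end Pool.Agent.Lib.MP_b76267_pr.Low
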