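import Mathlib
import Pool.Agent.Lib.MP_b76267_pr.Area
import Pool.Agent.Lib.MP_b76267_pr.Low.Th
import Pool.Agent.Lib.MP_b76267_pr.Low.Cal

/-!
The planar inequality: unfolding over the lattice, the two squares, and the length of the lines.
-/

set_option autoImplicit false

namespace Pool.Agent.Lib.MP_b76267_pr.Low

open MeasureTheory Set Topology Real
open scoped ENNReal NNReal

lemma good_th (z : ℝ) : Good (fun x => th (z + x)) where
  cont := continuous_th.comp (by fun_prop)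
  near x := th_sub_one _
  lip a b := by simpa using th_lip (z + a) (z + b)
  second m h := by simpa [add_assoc, add_sub_assoc] using th_second (z + m) h

lemma th_fold {z : ℝ} (k : ℤ) (hz : 2 * z = k) (s : ℝ) : th (z + |s - z|) = th s := by
  rcases abs_choice (s - z) with h | h
  · rw [h, add_sub_cancel]
  · have : z + -(s - z) = -s + k := by linarith
    rw [h, this, th_add_int, th_neg]

/-- The open square around `(z, z)`. -/
def dia (z : ℝ) : Set (EuclideanSpace ℝ (Fin 2)) := {y | |y 0 - z| + |y 1 - z| < 1 / 2}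

lemma isOpen_dia (z : ℝ) : IsOpen (dia z) := isOpen_lt (by fun_prop) continuous_const

lemma square {z : ℝ} (k : ℤ) (hz : 2 * z = k) {C D : Set (EuclideanSpace ℝ (Fin 2))}
    (hC : IsClosed C) (hD : IsClosed D) (hcov : ∀ x, x ∈ C ∨ x ∈ D)
    (hsw : ∀ x, (x ∈ C → !₂[2 * z - x 0, 2 * z - x 1] ∈ D) ∧
      (x ∈ D → !₂[2 * z - x 0, 2 * z - x 1] ∈ C)) :
    ENNReal.ofReal (2 * (√2 * Lam (fun x => th (z + x)) (1 / 4))) ≤
      ∫⁻ y in (C ∩ D) ∩ dia z, ENNReal.ofReal (th (y 0) * th (y 1)) ∂μHE[1] := by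
  set H : Set (EuclideanSpace ℝ (Fin 2)) := {y | z < y 1} ∪ ({y | y 1 = z} ∩ {y | z < y 0}) with hH
  have hHm : MeasurableSet H :=
    (isOpen_lt continuous_const (by fun_prop)).measurableSet.union
      ((isClosed_eq (by fun_prop) continuous_const).measurableSet.inter
        (isOpen_lt continuous_const (by fun_prop)).measurableSet)
  have hAm : MeasurableSet ((C ∩ D) ∩ dia z) :=
    (hC.inter hD).measurableSet.inter (isOpen_dia z).measurableSet
  have hboth : ∀ t ∈ Ioo (0 : ℝ) (1 / 4),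
      (∃ y ∈ ((C ∩ D) ∩ dia z) ∩ H, xi |y 0 - z| |y 1 - z| = t) ∧
      ∃ y ∈ ((C ∩ D) ∩ dia z) \ H, xi |y 0 - z| |y 1 - z| = t := by
    intro t ht
    obtain ⟨y, hy, h1, h2⟩ := level z hC hD hcov hsw ht
    set y' : EuclideanSpace ℝ (Fin 2) := !₂[2 * z - y 0, 2 * z - y 1] with hy'
    have e0 : y' 0 = 2 * z - y 0 := by simp [hy']
    have e1 : y' 1 = 2 * z - y 1 := by simp [hy']
    have a0 : |y' 0 - z| = |y 0 - z| := by
      rw [e0, ← abs_neg]
      congr 1
      ring
    have a1 : |y' 1 - z| = |y 1 - z| := by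
      rw [e1, ← abs_neg]
      congr 1
      ring
    have m1 : y ∈ (C ∩ D) ∩ dia z := ⟨hy, h1⟩
    have m2 : y' ∈ (C ∩ D) ∩ dia z :=
      ⟨⟨(hsw y).2 hy.2, (hsw y).1 hy.1⟩, by
        show |y' 0 - z| + |y' 1 - z| < 1 / 2
        rwa [a0, a1]⟩
    have h2' : xi |y' 0 - z| |y' 1 - z| = t := by rwa [a0, a1]
    by_cases hyH : y ∈ H
    · refine ⟨⟨y, ⟨m1, hyH⟩, h2⟩, y', ⟨m2, fun h => ?_⟩, h2'⟩
      simp only [hH, mem_union, mem_inter_iff, mem_ofPred_eq, e0, e1] at hyH h
      rcases hyH with a | ⟨a, b⟩ <;> rcases h with c | ⟨c, d⟩ <;> linarith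
    · refine ⟨⟨y', ⟨m2, ?_⟩, h2'⟩, y, ⟨m1, hyH⟩, h2⟩
      simp only [hH, mem_union, mem_inter_iff, mem_ofPred_eq, e0, e1, not_or, not_and,
        not_lt] at hyH ⊢
      rcases hyH.1.lt_or_eq with a | a
      · left
        linarith
      · right
        refine ⟨by linarith, ?_⟩
        rcases (hyH.2 a).lt_or_eq with b | b
        · linarith
        · exfalso
          rw [a, b] at h2
          simp [xi] at h2
          exact ht.1.ne h2
  have h1 := (good_th z).half z (hAm.inter hHm) (fun y hy => hy.1.2) fun t ht => (hboth t ht).1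
  have h2 := (good_th z).half z (hAm.diff hHm) (fun y hy => hy.1.2) fun t ht => (hboth t ht).2
  simp only [th_fold k hz] at h1 h2
  rw [← lintegral_inter_add_sdiff _ _ hHm, two_mul]
  exact ENNReal.ofReal_add_le.trans (add_le_add h1 h2)

lemma Lam_sum : 2 * (√2 * Lam (fun x => th (0 + x)) (1 / 4)) +
    2 * (√2 * Lam (fun x => th (1 / 2 + x)) (1 / 4)) = √2 * ∫ s in (0 : ℝ)..1, th s ^ 2 := by
  have hi : ∀ a b : ℝ, IntervalIntegrable (fun s => th s ^ 2) volume a b := fun a b =>
    (continuous_th.pow 2).intervalIntegrable a b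
  have hs : ∀ a b : ℝ, ∫ s in a..b, th s ^ 2 = ∫ s in (1 - b)..(1 - a), th s ^ 2 := by
    intro a b
    rw [← intervalIntegral.integral_comp_sub_left (fun s => th s ^ 2)]
    congr 1
    funext s
    have := th_add_int (-s) 1
    rw [th_neg] at this
    rw [← this]
    congr 2
    push_cast
    ring
  have h1 : Lam (fun x => th (1 / 2 + x)) (1 / 4) = ∫ s in (1 / 2 : ℝ)..(3 / 4), th s ^ 2 := by
    rw [Lam, intervalIntegral.integral_comp_add_left (fun s => th s ^ 2)]
    norm_num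
  have h2 : Lam (fun x => th (0 + x)) (1 / 4) = ∫ s in (0 : ℝ)..(1 / 4), th s ^ 2 := by
    simp [Lam]
  have h3 := hs 0 (1 / 4)
  have h4 := hs (1 / 2) (3 / 4)
  norm_num at h3 h4
  have h5 := intervalIntegral.integral_add_adjacent_intervals (hi 0 (1 / 4)) (hi (1 / 4) (1 / 2))
  have h6 := intervalIntegral.integral_add_adjacent_intervals (hi 0 (1 / 2)) (hi (1 / 2) (3 / 4))
  have h7 := intervalIntegral.integral_add_adjacent_intervals (hi 0 (3 / 4)) (hi (3 / 4) 1)
  rw [h1, h2, ← h7, ← h6, ← h5, ← h3, ← h4]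
  ring

lemma lower {C D : Set (EuclideanSpace ℝ (Fin 2))} (h : Swap C D) :
    ENNReal.ofReal (√2 * ∫ s in (0 : ℝ)..1, th s ^ 2) ≤
      ∫⁻ y in C ∩ D, ENNReal.ofReal (g (y 0) * g (y 1)) ∂μHE[1] := by
  have hSm : MeasurableSet (C ∩ D) := (h.closedC.inter h.closedD).measurableSet
  have s0 := square (z := 0) 0 (by simp) h.closedC h.closedD h.cover (fun x => by
    have e : (!₂[2 * 0 - x 0, 2 * 0 - x 1] : EuclideanSpace ℝ (Fin 2)) = -x := by
      ext i
      fin_cases i <;> simp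
    rw [e]
    exact h.neg x)
  have s1 := square (z := 1 / 2) 1 (by simp) h.closedC h.closedD h.cover (fun x => by
    have e : (!₂[2 * (1 / 2) - x 0, 2 * (1 / 2) - x 1] : EuclideanSpace ℝ (Fin 2)) =
        -x + EuclideanSpace.single 0 1 + EuclideanSpace.single 1 1 := by
      ext i
      fin_cases i <;> simp <;> ring
    rw [e]
    exact ⟨fun a => (h.add 1 _).1 ((h.add 0 _).2 ((h.neg x).1 a)),
      fun a => (h.add 1 _).2 ((h.add 0 _).1 ((h.neg x).2 a))⟩)
  set F : Set (EuclideanSpace ℝ (Fin 2)) := (C ∩ D) ∩ dia 0 ∪ (C ∩ D) ∩ dia (1 / 2) with hF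
  have hFm : MeasurableSet F := (hSm.inter (isOpen_dia _).measurableSet).union
    (hSm.inter (isOpen_dia _).measurableSet)
  set v : ℤ × ℤ → EuclideanSpace ℝ (Fin 2) := fun k => !₂[(k.1 : ℝ), (k.2 : ℝ)] with hv
  have hint : ∀ (a b : ℤ) (u : ℝ), (u = 0 ∨ u = 1 / 2 ∨ u = -(1 / 2)) → |a + u| + |b + u| < 1 →
      a = 0 ∧ b = 0 ∧ u = 0 := by
    intro a b u hu hab
    have hz : ∀ c : ℤ, |(c : ℝ)| < 1 → c = 0 := fun c hc => by
      have : |c| < 1 := by exact_mod_cast hc
      exact Int.abs_lt_one_iff.1 this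
    have hh : ∀ c : ℤ, 1 / 2 ≤ |(c : ℝ) + 1 / 2| := fun c => by
      rcases le_or_gt 0 c with hc | hc
      · have : (0 : ℝ) ≤ c := by exact_mod_cast hc
        exact le_abs.2 (Or.inl (by linarith))
      · have : (c : ℝ) + 1 ≤ 0 := by exact_mod_cast hc
        exact le_abs.2 (Or.inr (by linarith))
    rcases hu with rfl | rfl | rfl
    · rw [add_zero, add_zero] at hab
      exact ⟨hz a (by linarith [abs_nonneg (b : ℝ)]), hz b (by linarith [abs_nonneg (a : ℝ)]), rfl⟩
    · linarith [hh a, hh b]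
    · have h1 := hh (a - 1)
      have h2 := hh (b - 1)
      have e : ∀ c : ℤ, ((c - 1 : ℤ) : ℝ) + 1 / 2 = c + -(1 / 2) := fun c => by
        push_cast
        ring
      rw [e] at h1 h2
      linarith
  have hsep : ∀ (z z' : ℝ) (a b : ℤ) (y y' : EuclideanSpace ℝ (Fin 2)), y ∈ dia z → y' ∈ dia z' →
      y' 0 = y 0 + a → y' 1 = y 1 + b → |a + (z - z')| + |b + (z - z')| < 1 := by
    intro z z' a b y y' h1 h2 e0 e1
    have h3 : |a + (z - z')| ≤ |y' 0 - z'| + |y 0 - z| := by
      have : a + (z - z') = (y' 0 - z') - (y 0 - z) := by linarith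
      rw [this]
      exact abs_sub _ _
    have h4 : |b + (z - z')| ≤ |y' 1 - z'| + |y 1 - z| := by
      have : b + (z - z') = (y' 1 - z') - (y 1 - z) := by linarith
      rw [this]
      exact abs_sub _ _
    simp only [dia, mem_ofPred_eq] at h1 h2
    linarith
  have hdis : Pairwise (Function.onFun Disjoint fun k : ℤ × ℤ => (fun y => y + v k) '' F) := by
    intro k l hkl
    refine disjoint_left.2 ?_
    rintro _ ⟨y, hy, rfl⟩ ⟨y', hy', e⟩
    have e0 : y' 0 = y 0 + ((k.1 - l.1 : ℤ) : ℝ) := by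
      have := congrArg (fun x : EuclideanSpace ℝ (Fin 2) => x 0) e
      simp [hv] at this
      push_cast
      linarith
    have e1 : y' 1 = y 1 + ((k.2 - l.2 : ℤ) : ℝ) := by
      have := congrArg (fun x : EuclideanSpace ℝ (Fin 2) => x 1) e
      simp [hv] at this
      push_cast
      linarith
    have : k.1 - l.1 = 0 ∧ k.2 - l.2 = 0 := by
      rcases hy with hy | hy <;> rcases hy' with hy' | hy' <;>
        obtain ⟨a, b, -⟩ := hint _ _ _ (by norm_num) (hsep _ _ _ _ y y' hy.2 hy'.2 e0 e1) <;>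
        exact ⟨a, b⟩
    exact hkl (Prod.ext (by omega) (by omega))
  have hd2 : Disjoint ((C ∩ D) ∩ dia 0) ((C ∩ D) ∩ dia (1 / 2)) := by
    refine disjoint_left.2 fun y hy hy' => ?_
    obtain ⟨-, -, c⟩ := hint 0 0 _ (by norm_num) (hsep _ _ 0 0 y y hy.2 hy'.2 (by simp) (by simp))
    norm_num at c
  have hsub : (⋃ k : ℤ × ℤ, (fun y => y + v k) '' F) ⊆ C ∩ D := by
    refine iUnion_subset fun k => ?_
    rintro _ ⟨y, hy, rfl⟩
    have hy' : y ∈ C ∩ D := by rcases hy with hy | hy <;> exact hy.1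
    have := h.add_int 1 k.2 (h.add_int 0 k.1 hy')
    convert this using 1
    ext i
    fin_cases i <;> simp [hv]
  have hemb : ∀ k, MeasurableEmbedding (fun y : EuclideanSpace ℝ (Fin 2) => y + v k) := fun k =>
    measurableEmbedding_addRight _
  have hc := continuous_g
  calc _ = ENNReal.ofReal (2 * (√2 * Lam (fun x => th (0 + x)) (1 / 4)) +
        2 * (√2 * Lam (fun x => th (1 / 2 + x)) (1 / 4))) := by rw [Lam_sum]
    _ ≤ ∫⁻ y in F, ENNReal.ofReal (th (y 0) * th (y 1)) ∂μHE[1] := by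
        rw [hF, lintegral_union (hSm.inter (isOpen_dia _).measurableSet) hd2]
        exact ENNReal.ofReal_add_le.trans (add_le_add s0 s1)
    _ = ∫⁻ y in F, ∑' k : ℤ × ℤ, ENNReal.ofReal (g ((y + v k) 0) * g ((y + v k) 1)) ∂μHE[1] := by
        congr 1
        funext y
        rw [ENNReal.ofReal_mul (th_pos _).le, ← tsum_ofReal_g, ← tsum_ofReal_g, ENNReal.tsum_prod',
          ← ENNReal.tsum_mul_right]
        congr 1
        funext a
        rw [← ENNReal.tsum_mul_left]
        congr 1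
        funext b
        rw [← ENNReal.ofReal_mul (g_pos _).le]
        simp [hv]
    _ = ∑' k : ℤ × ℤ, ∫⁻ y in (fun y => y + v k) '' F,
          ENNReal.ofReal (g (y 0) * g (y 1)) ∂μHE[1] := by
        rw [lintegral_tsum fun k => (Continuous.measurable (by fun_prop)).ennreal_ofReal.aemeasurable]
        congr 1
        funext k
        exact ((IsometryEquiv.addRight (v k)).measurePreserving_euclideanHausdorffMeasure
          1).setLIntegral_comp_emb (hemb k) (fun y => ENNReal.ofReal (g (y 0) * g (y 1))) F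
    _ = ∫⁻ y in ⋃ k : ℤ × ℤ, (fun y => y + v k) '' F,
          ENNReal.ofReal (g (y 0) * g (y 1)) ∂μHE[1] :=
        (lintegral_iUnion (fun k => (hemb k).measurableSet_image.2 hFm) hdis _).symm
    _ ≤ _ := lintegral_mono_set hsub

lemma lintegral_g_th : ∫⁻ s, ENNReal.ofReal (g s) * ENNReal.ofReal (th s) =
    ENNReal.ofReal (∫ s in (0 : ℝ)..1, th s ^ 2) := by
  have hc := continuous_g
  have ht := continuous_th
  rw [← setLIntegral_univ, ← iUnion_Ioc_intCast ℝ,
    lintegral_iUnion (fun _ => measurableSet_Ioc) (pairwise_disjoint_Ioc_intCast ℝ)]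
  have h1 : ∀ j : ℤ, ∫⁻ s in Ioc (j : ℝ) (j + 1), ENNReal.ofReal (g s) * ENNReal.ofReal (th s) =
      ∫⁻ s in Ioc (0 : ℝ) 1, ENNReal.ofReal (g (s + j)) * ENNReal.ofReal (th s) := by
    intro j
    have := (measurePreserving_add_right volume (j : ℝ)).setLIntegral_comp_emb
      (measurableEmbedding_addRight _)
      (fun s => ENNReal.ofReal (g s) * ENNReal.ofReal (th s)) (Ioc 0 1)
    simp only [th_add_int, image_add_const_Ioc, zero_add] at this
    rw [this, add_comm]
  simp only [h1]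
  rw [← lintegral_tsum fun k => (Measurable.fun_mul
    (Continuous.measurable (by fun_prop)).ennreal_ofReal
    (Continuous.measurable (by fun_prop)).ennreal_ofReal).aemeasurable,
    intervalIntegral.integral_of_le zero_le_one, ofReal_integral_eq_lintegral_ofReal
      ((ht.fun_pow 2).integrableOn_Ioc) (ae_of_all _ fun s => sq_nonneg _)]
  congr 1
  funext s
  rw [ENNReal.tsum_mul_right, tsum_ofReal_g, ← ENNReal.ofReal_mul (th_pos _).le, sq]

lemma upper {a b : ℝ} (ha : a = 1 ∨ a = -1) (hb : b = 1 ∨ b = -1) :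
    ∫⁻ y in {y : EuclideanSpace ℝ (Fin 2) | ∃ k : ℤ, a * y 0 + b * y 1 = k},
      ENNReal.ofReal (g (y 0) * g (y 1)) ∂μHE[1] ≤
      ENNReal.ofReal (√2 * ∫ s in (0 : ℝ)..1, th s ^ 2) := by
  have hc := continuous_g
  have ha2 : a ^ 2 = 1 := by rcases ha with h | h <;> simp [h]
  have hb2 : b ^ 2 = 1 := by rcases hb with h | h <;> simp [h]
  set L : ℤ → ℝ → EuclideanSpace ℝ (Fin 2) := fun k s => !₂[s, b * (-(a * s) + k)] with hL
  have hsub : {y : EuclideanSpace ℝ (Fin 2) | ∃ k : ℤ, a * y 0 + b * y 1 = k} ⊆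
      ⋃ k, range (L k) := by
    rintro y ⟨k, hk⟩
    refine mem_iUnion.2 ⟨k, y 0, ?_⟩
    ext i
    fin_cases i
    · simp [hL]
    · simp only [hL, ← hk]
      simp
      linear_combination (y 1) * hb2
  have hlip : ∀ k, LipschitzWith (NNReal.sqrt 2) (L k) := by
    intro k
    apply LipschitzWith.of_dist_le_mul
    intro s t
    rw [EuclideanSpace.dist_eq, Real.coe_sqrt, Real.dist_eq, ← Real.sqrt_sq_eq_abs,
      ← Real.sqrt_mul (by norm_num)]
    apply Real.sqrt_le_sqrt
    simp only [Fin.sum_univ_two, hL, Real.dist_eq, Matrix.cons_val_zero, Matrix.cons_val_one,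
      sq_abs, NNReal.coe_ofNat]
    have : (b * (-(a * s) + k) - b * (-(a * t) + k)) ^ 2 = b ^ 2 * a ^ 2 * (s - t) ^ 2 := by ring
    rw [this, ha2, hb2]
    linarith
  have h4 := InnerProductSpace.euclideanHausdorffMeasure_eq_volume (V := ℝ)
  rw [Module.finrank_self] at h4
  have hk : ∀ k : ℤ, ∫⁻ y in range (L k), ENNReal.ofReal (g (y 0) * g (y 1)) ∂μHE[1] ≤
      ENNReal.ofReal (√2) * ∫⁻ s, ENNReal.ofReal (g s) * ENNReal.ofReal (g (-(a * s) + k)) := by
    intro k
    refine (lintegral_range_le (hlip k) 1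
      (Continuous.measurable (by fun_prop)).ennreal_ofReal).trans (le_of_eq ?_)
    rw [h4, pow_one]
    congr 1
    · rw [← ENNReal.ofReal_coe_nnreal]
      simp
    · congr 1
      funext s
      rw [← ENNReal.ofReal_mul (g_pos _).le]
      have : g (b * (-(a * s) + k)) = g (-(a * s) + k) := by
        rcases hb with h | h
        · rw [h, one_mul]
        · rw [h, neg_one_mul, g_neg]
      simp [hL, this]
  refine (lintegral_mono_set hsub).trans ((lintegral_iUnion_le _ _).trans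
    ((ENNReal.tsum_le_tsum hk).trans (le_of_eq ?_)))
  rw [ENNReal.tsum_mul_left, ← lintegral_tsum fun k => (Measurable.fun_mul
    (Continuous.measurable (by fun_prop)).ennreal_ofReal
    (Continuous.measurable (by fun_prop)).ennreal_ofReal).aemeasurable,
    ENNReal.ofReal_mul (sqrt_nonneg 2), ← lintegral_g_th]
  congr 2
  funext s
  rw [ENNReal.tsum_mul_left, tsum_ofReal_g, th_neg]
  rcases ha with h | h
  · rw [h, one_mul]
  · rw [h, neg_one_mul, th_neg]

lemma density (y : EuclideanSpace ℝ (Fin 2)) :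
    (2 * π) ^ (-((2 : ℕ) : ℝ) / 2) * exp (-‖y‖ ^ 2 / 2) = g (y 0) * g (y 1) := by
  have h1 : (2 * π) ^ (-((2 : ℕ) : ℝ) / 2) = (√(2 * π))⁻¹ * (√(2 * π))⁻¹ := by
    rw [← mul_inv, Real.mul_self_sqrt (by positivity), ← Real.rpow_neg_one]
    norm_num
  rw [h1, EuclideanSpace.real_norm_sq_eq, Fin.sum_univ_two, g, g, mul_mul_mul_comm, ← exp_add]
  congr 2
  ring

end Pool.Agent.Lib.MP_b76267_pr.Low
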